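import Pool.Agent.H126G.FinalA

set_option autoImplicit false

namespace Pool.Agent.Results.MP_9faec4_nt.AlmostAllTwists

open MvPolynomial WeierstrassCurve Pool.Agent.H126G Filter Topology
open Pool.Agent.H126R3 (Pt qy cubicDisc)

open Classical in
/-- Let `u = (u_j : j ∈ τ)` be variables, let `E : y² = x³ + b₂x² + b₄x + b₆`, `b_i ∈ ℤ[u]`, be an
elliptic curve over `ℚ(u)`, and let `h ∈ ℤ[u, t]` be of positive degree `m` in `t`, not divisible by
the square of a polynomial of positive degree in `t`. For an integer `d` let `W_d` be the quadratic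
twist of `E` by `d h` over `K = ℚ(u, t)`, and `n = #τ + 1` the number of variables. The Euler product
of `W_d` over the closed points of `Spec ℤ[u, t][1/(N d h)]` continues to a holomorphic nowhere
vanishing function `Φ_d` on `Re s > n + 1`. For any finite set of pairs `(d, T)`, `d` squarefree, such
that `Φ_d` has a meromorphic continuation to a neighbourhood of `n + 1 + iT`, the squares of the
orders of these continuations add up to at most `(2 (m - 1))²`. For all squarefree `d` outside a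
finite set, the group `W_d(K)` is finite and killed by `2`, and every meromorphic continuation of
`Φ_d` to `s = n + 1`, the dimension of the base, has order equal to the rank of `W_d(K)`. -/
theorem result {τ : Type} [Fintype τ] (b₂ b₄ b₆ : MvPolynomial τ ℤ)
    (hdisc : cubicDisc b₂ b₄ b₆ ≠ 0) (h : MvPolynomial (Option τ) ℤ)
    (hd : 0 < h.degreeOf none) (hs : SqNone h)
    (N : MvPolynomial (Option τ) ℤ) (hN : N ≠ 0)
    (hdvd : 2 * rename some (cubicDisc b₂ b₄ b₆) ∣ N)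
    (K : Type) [Field K] [Algebra (MvPolynomial (Option τ) ℤ) K]
    [IsFractionRing (MvPolynomial (Option τ) ℤ) K] (W : ℤ → WeierstrassCurve K)
    (hW : ∀ d, W d = twist (algebraMap _ K (rename some b₂)) (algebraMap _ K (rename some b₄))
      (algebraMap _ K (rename some b₆)) (algebraMap _ K (C d * h)))
    (n : ℕ) (hn : n = Fintype.card (Option τ)) :
    ∃ (Φ : ℤ → ℂ → ℂ) (S : Finset ℤ),
      (∀ d : ℤ, (∀ s : ℂ, (n : ℝ) + 3 / 2 < s.re →
          HasProd (fun y : {y : Pt (Option τ) // Good N (C d * h) y} =>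
            (1 - (ay (rename some b₂) (rename some b₄) (rename some b₆) (C d * h) y.1 : ℂ) *
              (qy y.1 : ℂ) ^ (-s) + (qy y.1 : ℂ) ^ (1 - 2 * s))⁻¹) (Φ d s)) ∧
        DifferentiableOn ℂ (Φ d) {s : ℂ | (n : ℝ) + 1 < s.re} ∧ ∀ s, Φ d s ≠ 0) ∧
      (∀ (T : Finset (ℤ × ℝ)) (Λ : ℤ × ℝ → ℂ → ℂ), (∀ k ∈ T, Squarefree k.1 ∧
          MeromorphicAt (Λ k) ((n : ℂ) + 1 + k.2 * Complex.I) ∧
          ∀ᶠ s in 𝓝 ((n : ℂ) + 1 + k.2 * Complex.I), (n : ℝ) + 1 < s.re → Λ k s = Φ k.1 s) →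
        ∃ m : ℤ × ℝ → ℤ, (∀ k ∈ T,
          meromorphicOrderAt (Λ k) ((n : ℂ) + 1 + k.2 * Complex.I) = (m k : WithTop ℤ)) ∧
          ∑ k ∈ T, (m k) ^ 2 ≤ (2 * ((h.degreeOf none : ℤ) - 1)) ^ 2) ∧
      (∀ d : ℤ, Squarefree d → d ∉ S → (∀ P : (W d).toAffine.Point, P + P = 0) ∧
        Finite (W d).toAffine.Point ∧ ∀ Λ : ℂ → ℂ, MeromorphicAt Λ ((n : ℂ) + 1) →
          (∀ᶠ s in 𝓝 ((n : ℂ) + 1), (n : ℝ) + 1 < s.re → Λ s = Φ d s) →
          meromorphicOrderAt Λ ((n : ℂ) + 1) =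
            ((Module.finrank ℤ (W d).toAffine.Point : ℤ) : WithTop ℤ)) :=
  mainA b₂ b₄ b₆ hdisc h hd hs N hN ((Dvd.intro _ rfl).trans hdvd) K W hW n hn

end Pool.Agent.Results.MP_9faec4_nt.AlmostAllTwists
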