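import Pool.Agent.H126G.MainAn
import Pool.Agent.H126G.RankG

set_option autoImplicit false

namespace Pool.Agent.Results.MP_9faec4_nt.ProductTwists

open MvPolynomial WeierstrassCurve Pool.Agent.H126G
open Pool.Agent.H126R3 (Pt qy cubicDisc)

open Classical in
/-- Let `u = (u_j : j ∈ τ)` be variables, let `E : y² = x³ + b₂x² + b₄x + b₆`, `b_i ∈ ℤ[u]`, be an
elliptic curve over `ℚ(u)`, and let `D = H₁(u, s) H₂(u, t)` with integer polynomials `H₁`, `H₂` of
positive degree in `s`, respectively `t`, not divisible by the square of a polynomial of positive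
degree in `s`, respectively `t`. Let `W` be the quadratic twist of `E` by `D` over
`K = ℚ(u, t, s)`; there are `#τ + 2` variables. The Euler product `Φ₁` of `W` over the closed points
of `Spec ℤ[u, t, s][1/(ND)]` continues to a holomorphic nowhere vanishing function on
`Re s > #τ + 2 + 5/6`, the group `W(K)` is finite and killed by `2`, and the order of `Φ₁` at
`s = #τ + 3`, the dimension of the base, equals the rank of `W(K)`. -/
theorem result {τ : Type} [Fintype τ] (b₂ b₄ b₆ : MvPolynomial τ ℤ)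
    (hdisc : cubicDisc b₂ b₄ b₆ ≠ 0) (H₁ H₂ : MvPolynomial (Option τ) ℤ)
    (h₁ : 0 < H₁.degreeOf none) (h₂ : 0 < H₂.degreeOf none) (s₁ : SqNone H₁) (s₂ : SqNone H₂)
    (N : MvPolynomial (Option (Option τ)) ℤ) (hN : N ≠ 0)
    (hdvd : 2 * up2 (cubicDisc b₂ b₄ b₆) ∣ N)
    (D : MvPolynomial (Option (Option τ)) ℤ) (hD : D = prodD H₁ H₂)
    (K : Type) [Field K] [Algebra (MvPolynomial (Option (Option τ)) ℤ) K]
    [IsFractionRing (MvPolynomial (Option (Option τ)) ℤ) K] (W : WeierstrassCurve K)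
    (hW : W = twist (algebraMap _ K (up2 b₂)) (algebraMap _ K (up2 b₄)) (algebraMap _ K (up2 b₆))
      (algebraMap _ K D)) (n : ℕ) (hn : n = Fintype.card (Option (Option τ))) :
    ∃ Φ : ℂ → ℂ,
      (∀ s : ℂ, (n : ℝ) + 3 / 2 < s.re →
        HasProd (fun y : {y : Pt (Option (Option τ)) // Good N D y} =>
          (1 - (ay (up2 b₂) (up2 b₄) (up2 b₆) D y.1 : ℂ) * (qy y.1 : ℂ) ^ (-s) +
            (qy y.1 : ℂ) ^ (1 - 2 * s))⁻¹) (Φ s)) ∧
      DifferentiableOn ℂ Φ {s : ℂ | (n : ℝ) + 5 / 6 < s.re} ∧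
      (∀ s, Φ s ≠ 0) ∧
      (∀ P : W.toAffine.Point, P + P = 0) ∧ Finite W.toAffine.Point ∧
      meromorphicOrderAt Φ ((n : ℂ) + 1) =
        ((Module.finrank ℤ W.toAffine.Point : ℤ) : WithTop ℤ) := by
  subst hD
  subst hn
  refine main_of ?_ (up2 b₂) (up2 b₄) (up2 b₆) N (prodD H₁ H₂) ((Dvd.intro _ rfl).trans hdvd) hN ?_
    (ZG_bound b₂ b₄ b₆ H₁ H₂ h₁ h₂ s₁ s₂) K ?_ W hW
  · exact Fintype.card_pos
  · rw [prodD]
    apply mul_ne_zero
    · rw [Ne, map_eq_zero_iff _ (rename_injective _ (Option.map_injective (Option.some_injective τ)))]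
      rintro rfl
      simp at h₁
    · rw [Ne, map_eq_zero_iff _ (rename_injective _ (Option.some_injective _))]
      rintro rfl
      simp at h₂
  · intro x y hy heq
    exact rankG b₂ b₄ b₆ hdisc H₁ H₂ h₁ h₂ s₁ s₂ K x y hy heq

end Pool.Agent.Results.MP_9faec4_nt.ProductTwists
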